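import Pool.Agent.helper65.GD.SpecF

set_option autoImplicit false

namespace Pool.Agent.GD

open Finset Metric Filter Topology

theorem XN2_step (p m j : ℕ) (h1 : 1 ≤ j) (h2 : j ≤ p) (h3 : p < m) :
    AA p m j ≤ AA p (m + 1) j := by
  unfold AA
  obtain ⟨k, rfl⟩ : ∃ k, m = p + 1 + k := ⟨m - p - 1, by omega⟩
  have e1 : p + 1 + k - p - 1 = k := by omega
  have e2 : p + 1 + k + 1 - p - 1 = k + 1 := by omega
  have e3 : (p + 1 + k + 1 + p).factorial = (p + 1 + k + 1 + p) * (p + 1 + k + p).factorial := by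
    rw [show p + 1 + k + 1 + p = (p + 1 + k + p) + 1 by omega, Nat.factorial_succ]
  have e4 : (k + 1).factorial = (k + 1) * k.factorial := Nat.factorial_succ k
  rw [e1, e2, e3, e4]
  have hj : (1 : ℝ) ≤ (j : ℝ) := by exact_mod_cast h1
  have hp : (j : ℝ) ≤ (p : ℝ) := by exact_mod_cast h2
  have hk : (0 : ℝ) ≤ (k : ℝ) := Nat.cast_nonneg k
  have hF : (0 : ℝ) < ((p + 1 + k + p).factorial : ℝ) := by exact_mod_cast Nat.factorial_pos _
  have ha : (0 : ℝ) < ((p - j).factorial : ℝ) := by exact_mod_cast Nat.factorial_pos _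
  have hb : (0 : ℝ) < ((p + j).factorial : ℝ) := by exact_mod_cast Nat.factorial_pos _
  have hc : (0 : ℝ) < (k.factorial : ℝ) := by exact_mod_cast Nat.factorial_pos _
  have hm1 : (0 : ℝ) < ((p : ℝ) + 1 + k) ^ 2 - (j : ℝ) ^ 2 := by nlinarith
  have hm2 : (0 : ℝ) < ((p : ℝ) + 1 + k + 1) ^ 2 - (j : ℝ) ^ 2 := by nlinarith
  have key : ((k : ℝ) + 1) * (((p : ℝ) + 1 + k + 1) ^ 2 - (j : ℝ) ^ 2) ≤
      ((p : ℝ) + 1 + k + 1 + p) * (((p : ℝ) + 1 + k) ^ 2 - (j : ℝ) ^ 2) := by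
    have s1 : ((p : ℝ) + 1 + k + 1 - j) * ((p : ℝ) + 1 + k + 1 + j) ≤
        ((p : ℝ) + 1 + k + j) * ((p : ℝ) + 1 + k + 1 + p) :=
      mul_le_mul (by linarith) (by linarith) (by linarith) (by linarith)
    have s2 : ((k : ℝ) + 1) * (((p : ℝ) + 1 + k + 1 - j) * ((p : ℝ) + 1 + k + 1 + j)) ≤
        ((p : ℝ) + 1 + k - j) * (((p : ℝ) + 1 + k + j) * ((p : ℝ) + 1 + k + 1 + p)) :=
      mul_le_mul (by linarith) s1 (mul_nonneg (by linarith) (by linarith)) (by linarith)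
    nlinarith [s2]
  push_cast
  rw [div_le_div_iff₀ (by positivity) (by positivity)]
  calc 2 * (j : ℝ) * ((p + 1 + k + p).factorial : ℝ) * (((p - j).factorial : ℝ) *
        ((p + j).factorial : ℝ) * (((k : ℝ) + 1) * (k.factorial : ℝ)) *
          (((p : ℝ) + 1 + k + 1) ^ 2 - (j : ℝ) ^ 2))
      = (2 * (j : ℝ) * ((p + 1 + k + p).factorial : ℝ) * ((p - j).factorial : ℝ) *
          ((p + j).factorial : ℝ) * (k.factorial : ℝ)) *
          (((k : ℝ) + 1) * (((p : ℝ) + 1 + k + 1) ^ 2 - (j : ℝ) ^ 2)) := by ring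
    _ ≤ (2 * (j : ℝ) * ((p + 1 + k + p).factorial : ℝ) * ((p - j).factorial : ℝ) *
          ((p + j).factorial : ℝ) * (k.factorial : ℝ)) *
          (((p : ℝ) + 1 + k + 1 + p) * (((p : ℝ) + 1 + k) ^ 2 - (j : ℝ) ^ 2)) :=
        mul_le_mul_of_nonneg_left key (by positivity)
    _ = 2 * (j : ℝ) * (((p : ℝ) + 1 + k + 1 + p) * ((p + 1 + k + p).factorial : ℝ)) *
          (((p - j).factorial : ℝ) * ((p + j).factorial : ℝ) * (k.factorial : ℝ) *
          (((p : ℝ) + 1 + k) ^ 2 - (j : ℝ) ^ 2)) := by ring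

theorem XN2 : XN2_stmt := by
  intro p m j h1 h2 h3
  obtain ⟨k, rfl⟩ : ∃ k, m = p + 1 + k := ⟨m - p - 1, by omega⟩
  clear h3
  induction k with
  | zero => exact le_refl _
  | succ k ih => exact ih.trans (XN2_step p (p + 1 + k) j h1 h2 (by omega))

end Pool.Agent.GD
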